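import Mathlib
import Pool.Agent.H428I.Infil

set_option autoImplicit false

namespace Pool.Agent.Results.MP_90dd8d_pr.FastSearcher

open Finset Pool.Agent.H428I

/-- **The infiltration game with a fast searcher (`w ≥ n - 1`): both bounds for the value**, equal to
first order in `1 - lam`. -/
theorem result :
    -- the infiltrator's guarantee: one mixed strategy for all `w` and all `lam`
    (∀ n : ℕ, 1 ≤ n → ∃ (ι : Type) (_ : Fintype ι) (p : ι → ℝ) (x : ι → ℕ → ℤ),
      (∀ i, 0 ≤ p i) ∧ ∑ i, p i = 1 ∧ (∀ i, IsInfil n (x i)) ∧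
      ∀ (w : ℕ) (y : ℕ → ℤ), IsSearch n w y → ∀ lam : ℝ, 0 < lam → lam < 1 → ∀ m : ℕ,
        lam ^ m * (1 - (∑ k ∈ Finset.Icc 1 (n - 1), (1 : ℝ) / k - m) * (1 - lam)) ≤
          ∑ i, p i * win n lam (x i) y) ∧
    -- the searcher's guarantee for `w ≥ n - 1`: one mixed strategy for all `lam`
    (∀ n : ℕ, 1 ≤ n → ∃ (ι : Type) (_ : Fintype ι) (p : ι → ℝ) (y : ι → ℕ → ℤ),
      (∀ i, 0 ≤ p i) ∧ ∑ i, p i = 1 ∧ (∀ i, ∀ w : ℕ, n - 1 ≤ w → IsSearch n w (y i)) ∧
      ∀ x : ℕ → ℤ, IsInfil n x → ∀ lam : ℝ, 0 < lam → lam < 1 →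
        ∑ i, p i * win n lam x (y i) ≤ ∏ k ∈ Finset.Icc 1 (n - 1), (1 - (1 - lam) / (k : ℝ))) ∧
    -- the two bounds agree to first order in `1 - lam`
    (∀ n : ℕ, ∀ lam : ℝ, 0 < lam → lam < 1 →
      ∏ k ∈ Finset.Icc 1 (n - 1), (1 - (1 - lam) / (k : ℝ)) ≤
        1 - (∑ k ∈ Finset.Icc 1 (n - 1), (1 : ℝ) / k) * (1 - lam) +
          ((∑ k ∈ Finset.Icc 1 (n - 1), (1 : ℝ) / k) * (1 - lam)) ^ 2 / 2) := by
  classical
  refine ⟨guaranteeA, ?_, fun n lam h0 h1 => (first_order (n - 1) lam h0 h1).2⟩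
  · intro n hn
    rcases Nat.lt_or_ge 1 n with h | h
    · obtain ⟨q, rfl⟩ : ∃ q, n = q + 1 := ⟨n - 1, by omega⟩
      have hq : 1 ≤ q := by omega
      refine ⟨((k : Fin (q - 1)) → Fin ((k : ℕ) + 2)), inferInstance,
        fun _ => ∏ k : Fin (q - 1), (1 / (((k : ℕ) : ℝ) + 2)), fun g => yp q g,
        fun _ => Finset.prod_nonneg fun k _ => by positivity, ?_, ?_, ?_⟩
      · rw [Finset.sum_const, Finset.card_univ, Fintype.card_pi, nsmul_eq_mul]
        simp only [Fintype.card_fin]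
        push_cast
        rw [← Finset.prod_mul_distrib]
        apply Finset.prod_eq_one
        intro k _
        have : ((k : ℕ) : ℝ) + 2 ≠ 0 := by positivity
        field_simp
      · intro g w hw
        exact yp_search q w (by omega) g
      · intro x hx lam h0 h1
        rw [Nat.add_sub_cancel]
        exact partB q hq lam h0 h1 x hx
    · obtain rfl : n = 1 := by omega
      refine ⟨Unit, inferInstance, fun _ => 1, fun _ _ => 1,
        fun _ => zero_le_one, by simp, ?_, ?_⟩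
      · intro _ w _
        refine ⟨rfl, fun k => ⟨le_refl _, by simp, by simp⟩⟩
      · intro x hx lam h0 h1
        simp only [Finset.univ_unique, Finset.sum_const, Finset.card_singleton, one_smul, one_mul,
          Nat.sub_self]
        rw [Finset.Icc_eq_empty (by norm_num), Finset.prod_empty]
        unfold win
        split_ifs
        · exact pow_le_one₀ h0.le h1.le
        · exact zero_le_one

end Pool.Agent.Results.MP_90dd8d_pr.FastSearcher
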