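import Mathlib
import Pool.Agent.H428I.Infil

set_option autoImplicit false

namespace Pool.Agent.Results.MP_90dd8d_pr.PowerDecay

open Finset Pool.Agent.H428I

/-- **The infiltration game for every searcher speed `w ≥ 2`: the value decays like a power of
`n`.** -/
theorem result :
    -- the infiltrator's guarantee: one mixed strategy for all `w` and all `lam`
    (∀ n : ℕ, 1 ≤ n → ∃ (ι : Type) (_ : Fintype ι) (p : ι → ℝ) (x : ι → ℕ → ℤ),
      (∀ i, 0 ≤ p i) ∧ ∑ i, p i = 1 ∧ (∀ i, IsInfil n (x i)) ∧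
      ∀ (w : ℕ) (y : ℕ → ℤ), IsSearch n w y → ∀ lam : ℝ, 0 < lam → lam < 1 →
        lam * (n : ℝ) ^ (Real.log lam) ≤ ∑ i, p i * win n lam (x i) y) ∧
    -- the searcher's guarantee for `w ≥ 2`: one mixed strategy for all `w` and all `lam`
    (∀ n : ℕ, 1 ≤ n → ∃ (ι : Type) (_ : Fintype ι) (p : ι → ℝ) (y : ι → ℕ → ℤ),
      (∀ i, 0 ≤ p i) ∧ ∑ i, p i = 1 ∧ (∀ i, ∀ w : ℕ, 2 ≤ w → IsSearch n w (y i)) ∧
      ∀ x : ℕ → ℤ, IsInfil n x → ∀ lam : ℝ, 0 < lam → lam < 1 →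
        ∑ i, p i * win n lam x (y i) ≤ ((2 + lam) / 3) ^ (Nat.log 3 n)) := by
  classical
  refine ⟨?_, ?_⟩
  · intro n hn
    obtain ⟨ι, hι, p, x, hp, hs, hx, hg⟩ := guaranteeA n hn
    refine ⟨ι, hι, p, x, hp, hs, hx, fun w y hy lam h0 h1 => ?_⟩
    exact power_of_int lam h0 h1 _ _ (Finset.sum_nonneg fun k _ => by positivity) n hn
      (harm_log (n - 1) n (by omega) hn) (hg w y hy lam h0 h1)
  · intro n hn
    have hJ : 3 ^ (Nat.log 3 n) ≤ n := Nat.pow_log_le_self 3 (by omega)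
    refine ⟨Fin (Nat.log 3 n) → Fin 3, inferInstance, fun _ => (1 / (3 : ℝ)) ^ (Nat.log 3 n),
      fun s => yz (Nat.log 3 n) s, fun _ => by positivity, ?_, ?_, ?_⟩
    · rw [Finset.sum_const, Finset.card_univ, Fintype.card_fun, Fintype.card_fin, Fintype.card_fin,
        nsmul_eq_mul]
      push_cast
      rw [← mul_pow]
      norm_num
    · intro s w hw
      exact yz_search n _ w hw hJ s
    · intro x hx lam h0 h1
      exact partD n _ hJ lam h0 h1 x hx

end Pool.Agent.Results.MP_90dd8d_pr.PowerDecay
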